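import Pool.Agent.Work.MP_db9399_oc_helper27.LrgCnt

/-!
# MP_db9399: LCNT, polynomial bounds for the dependencies in LRG (helper62)
-/

set_option autoImplicit false

namespace Pool.Agent.Work.MP_db9399_oc_h62

open Finset Classical
open Pool.Agent.Work.MP_db9399_all (nb)
open Pool.Agent.Work.MP_db9399_da hiding qV
open Pool.Agent.Work.MP_db9399_xf
open Pool.Agent.Work.MP_db9399_oc
open Pool.Agent.Work.MP_db9399_oc_helper27

universe u

variable {V : Type u} [Fintype V] {N J : ℕ} {k : Con} {c' : ℝ} {D : OD V N J}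
  {q : Fin N → Bool → Bool → ℕ → ℕ} {A : Gm D → Finset V} {y : ℝ}

/-- a piece has at most `d ^ 2` vertices -/
theorem pV_le (h : Cx k c' D q A y) (n : Fin N) : (pV D.X.P n).card ≤ D.d ^ 2 := by
  rcases (pV D.X.P n).eq_empty_or_nonempty with he | ⟨v, hv⟩
  · rw [he]; simp
  have hv' := mem_pV.1 hv
  obtain ⟨kk, hk⟩ := Option.ne_none_iff_exists'.1 (h.H.pc.cln v hv'.1)
  have h1 : pV D.X.P n ⊆ univ.filter (fun v => D.X.cq v = some kk) := by
    intro w hw
    have hw' := mem_pV.1 hw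
    refine mem_filter.2 ⟨mem_univ _, ?_⟩
    rw [← hk]
    exact h.H.pc.clp w v hw'.1 hv'.1 (hw'.2.trans hv'.2.symm)
  have h2 : ((pV D.X.P n).card : ℝ) ≤ k.C * D.d :=
    le_trans (by exact_mod_cast card_le_card h1) (h.H.pc.clc kk)
  have h3 : ((pV D.X.P n).card : ℝ) ≤ (D.d : ℝ) ^ 2 := by
    have h4 := h.Cd
    have h5 := h.d0
    nlinarith
  exact_mod_cast h3

theorem A_le (h : Cx k c' D q A y) (γ : Gm D) : (A γ).card ≤ D.d ^ 2 := by
  refine le_trans (card_le_card ?_) (pV_le h γ.pn)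
  intro v hv
  have h1 := h.mem hv
  exact mem_pV.2 ⟨h1.1, h1.2.1⟩

/-- the groups whose lists meet a set -/
theorem grp_le (h : Cx k c' D q A y) (W : Finset V) (Q : Gm D → Prop) [DecidablePred Q]
    (hQ : ∀ γ, Q γ → ∃ w ∈ A γ, w ∈ W) :
    (univ.filter (fun γ => Q γ)).card ≤ W.card * (D.d + 2) := by
  have h1 : ∀ γ : Gm D, ∃ w : V, Q γ → w ∈ A γ ∧ w ∈ W := by
    intro γ
    by_cases hq : Q γ
    · obtain ⟨w, hw, hw'⟩ := hQ γ hq
      exact ⟨w, fun _ => ⟨hw, hw'⟩⟩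
    · have hn := (h.H.pc.bN γ.pn γ.ty)
      obtain ⟨w, _⟩ := hn
      exact ⟨w, fun h' => absurd h' hq⟩
  choose f hf using h1
  have h2 : (univ.filter (fun γ => Q γ)).card ≤ (W ×ˢ range (D.d + 2)).card := by
    refine card_le_card_of_injOn (fun γ => (f γ, γ.cb)) ?_ ?_
    · intro γ hγ
      have hγ' : Q γ := (mem_filter.1 hγ).2
      exact mem_product.2 ⟨(hf γ hγ').2, mem_range.2 γ.lt⟩
    · intro γ hγ γ' hγ' he
      have h3 : Q γ := (mem_filter.1 hγ).2
      have h4 : Q γ' := (mem_filter.1 hγ').2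
      have he1 : f γ = f γ' := congrArg Prod.fst he
      have he2 : γ.cb = γ'.cb := congrArg Prod.snd he
      refine h.uniq (v := f γ) (hf γ h3).1 ?_ he2
      rw [he1]
      exact (hf γ' h4).1
  rwa [card_product, card_range] at h2

/-- neighbours of a set -/
theorem nbs_le (h : Cx k c' D q A y) (B : Finset V) (hB : B.card ≤ D.d ^ 2) :
    (B.biUnion (fun v => nb D.G v)).card ≤ D.d ^ 3 := by
  have h1 : (B.biUnion (fun v => nb D.G v)).card ≤ ∑ v ∈ B, (nb D.G v).card := card_biUnion_le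
  have h2 : ∑ v ∈ B, (nb D.G v).card = B.card * D.d := by
    rw [sum_congr rfl (fun v _ => h.H.pc.reg v), sum_const, smul_eq_mul]
  calc _ ≤ B.card * D.d := h1.trans h2.le
    _ ≤ D.d ^ 2 * D.d := Nat.mul_le_mul_right _ hB
    _ = D.d ^ 3 := by ring

theorem d_ge (h : Cx k c' D q A y) : 10 ≤ D.d := by
  have h1 := h.y1
  have h2 := h.yd
  have h3 : (10 : ℝ) ^ 6 ≤ y ^ 16 := by
    calc (10 : ℝ) ^ 6 ≤ y := h1
      _ = y ^ 1 := (pow_one y).symm
      _ ≤ y ^ 16 := pow_le_pow_right₀ (by linarith) (by norm_num)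
  have h4 : (10 : ℝ) ≤ D.d := by linarith
  exact_mod_cast h4

/-- a vertex with a nonzero weight has a neighbour in the piece -/
theorem wk_nb {n : Fin N} {v : V} (hw : wk D n v ≠ 0) : ∃ x ∈ pV D.X.P n, D.G.Adj v x := by
  unfold wk at hw
  split_ifs at hw with h1
  · have h2 : (nb D.G v ∩ pV D.X.P n).card ≠ 0 := by exact_mod_cast hw
    obtain ⟨x, hx⟩ := card_pos.1 (Nat.pos_of_ne_zero h2)
    rw [mem_inter] at hx
    exact ⟨x, hx.2, mem_nb.1 hx.1⟩
  · exact absurd rfl hw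

theorem stmt_LCNT : Stmt_LCNT.{u} := by
  intro V _ N J k c' D q A y hk h
  have hd := d_ge h
  have hd2 : D.d + 2 ≤ D.d ^ 2 := by nlinarith
  have hd8 : (D.d ^ 3 + D.d ^ 2) * (D.d + 2) ≤ D.d ^ 8 := by
    have h1 : D.d ^ 2 ≤ D.d ^ 3 := Nat.pow_le_pow_right (by omega) (by norm_num)
    calc (D.d ^ 3 + D.d ^ 2) * (D.d + 2) ≤ (D.d ^ 3 + D.d ^ 3) * D.d ^ 2 :=
          Nat.mul_le_mul (by omega) hd2
      _ = 2 * D.d ^ 5 := by ring
      _ ≤ D.d ^ 3 * D.d ^ 5 := by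
          refine Nat.mul_le_mul_right _ ?_
          have h2 : D.d ^ 1 ≤ D.d ^ 3 := Nat.pow_le_pow_right (by omega) (by norm_num)
          rw [pow_one] at h2
          omega
      _ = D.d ^ 8 := by ring
  refine ⟨fun γ => A_le h γ, ?_, ?_, ?_⟩
  · intro γ
    set W := (A γ).biUnion (fun v => nb D.G v) ∪ A γ with hW
    have hWc : W.card ≤ D.d ^ 3 + D.d ^ 2 :=
      (card_union_le _ _).trans (Nat.add_le_add (nbs_le h _ (A_le h γ)) (A_le h γ))
    have hcl : ∀ (γ₁ γ₂ : Gm D) (v w : V), Bd D γ₁ v γ₂ w → v = w ∨ D.G.Adj v w := by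
      intro γ₁ γ₂ v w hB
      rcases hB with ⟨_, _, _, _, h5⟩ | ⟨_, h5, _⟩ | ⟨_, h5, _⟩
      · exact Or.inl h5
      · exact Or.inr h5.1.1
      · exact Or.inr h5.1.1
    refine (grp_le h W _ ?_).trans ((Nat.mul_le_mul_right _ hWc).trans hd8)
    rintro γ' ⟨v, hv, w, hw, hB⟩
    refine ⟨w, hw, ?_⟩
    have h1 : v = w ∨ D.G.Adj v w := by
      rcases hB with hB | hB
      · exact hcl _ _ _ _ hB
      · rcases hcl _ _ _ _ hB with h2 | h2
        · exact Or.inl h2.symm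
        · exact Or.inr h2.symm
    rcases h1 with h1 | h1
    · rw [hW, ← h1]
      exact mem_union_right _ hv
    · rw [hW]
      exact mem_union_left _ (mem_biUnion.2 ⟨v, hv, mem_nb.2 h1⟩)
  · intro n b
    have hWc := nbs_le h _ (pV_le h n)
    refine (grp_le h ((pV D.X.P n).biUnion (fun v => nb D.G v)) _ ?_).trans
      ((Nat.mul_le_mul_right _ (hWc.trans (Nat.le_add_right _ _))).trans hd8)
    rintro γ ⟨v, hv, hw⟩
    have hw' : wk D n v ≠ 0 := by
      intro h0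
      rw [h0] at hw
      simp at hw
    obtain ⟨x, hx, hvx⟩ := wk_nb hw'
    exact ⟨v, hv, mem_biUnion.2 ⟨x, hx, mem_nb.2 hvx.symm⟩⟩
  · intro γ
    have h1 : ∀ κ : ULift.{u} (Fin N × Fin (D.d + 2)), ∃ x : V, (∃ v ∈ A γ,
        (if γ.cb = κ.down.2.1 then wk D κ.down.1 v else 0) ≠ 0) →
        x ∈ (A γ).biUnion (fun v => nb D.G v) ∧ D.X.P.pc x = κ.down.1 ∧
          γ.cb = κ.down.2.1 := by
      intro κ
      by_cases hq : ∃ v ∈ A γ, (if γ.cb = κ.down.2.1 then wk D κ.down.1 v else 0) ≠ 0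
      · obtain ⟨v, hv, hw⟩ := hq
        have hc : γ.cb = κ.down.2.1 := by
          by_contra hc
          rw [if_neg hc] at hw
          exact hw rfl
        rw [if_pos hc] at hw
        obtain ⟨x, hx, hvx⟩ := wk_nb hw
        exact ⟨x, fun _ => ⟨mem_biUnion.2 ⟨v, hv, mem_nb.2 hvx⟩, (mem_pV.1 hx).2, hc⟩⟩
      · obtain ⟨w, _⟩ := h.H.pc.bN γ.pn γ.ty
        exact ⟨w, fun h' => absurd h' hq⟩
    choose f hf using h1
    have h2 : (univ.filter (fun κ : ULift.{u} (Fin N × Fin (D.d + 2)) => ∃ v ∈ A γ,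
        (if γ.cb = κ.down.2.1 then wk D κ.down.1 v else 0) ≠ 0)).card ≤
        ((A γ).biUnion (fun v => nb D.G v)).card := by
      refine card_le_card_of_injOn f ?_ ?_
      · intro κ hκ
        exact (hf κ (mem_filter.1 hκ).2).1
      · intro κ hκ κ' hκ' he
        have h3 := hf κ (mem_filter.1 hκ).2
        have h4 := hf κ' (mem_filter.1 hκ').2
        have h5 : κ.down.1 = κ'.down.1 := by rw [← h3.2.1, ← h4.2.1, he]
        have h6 : κ.down.2 = κ'.down.2 := Fin.ext (h3.2.2.symm.trans h4.2.2)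
        exact ULift.ext _ _ (Prod.ext h5 h6)
    refine h2.trans ((nbs_le h _ (A_le h γ)).trans ?_)
    exact Nat.pow_le_pow_right (by omega) (by norm_num)

end Pool.Agent.Work.MP_db9399_oc_h62
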