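import Pool.Agent.Work.MP_db9399_oc_helper62.Base
import Pool.Agent.Work.MP_db9399_oc_helper27.LrgDefs

/-!
# MP_db9399: LRGA, the lists of the class 4 are large (helper62)
-/

set_option autoImplicit false

namespace Pool.Agent.Work.MP_db9399_oc_h62

open Finset Classical
open Pool.Agent.Work.MP_db9399_all (nb)
open Pool.Agent.Work.MP_db9399_lt (us)
open Pool.Agent.Work.MP_db9399_da hiding qV
open Pool.Agent.Work.MP_db9399_xf
open Pool.Agent.Work.MP_db9399_x4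
open Pool.Agent.Work.MP_db9399_oc
open Pool.Agent.Work.MP_db9399_oc_helper27 (LH AA Stmt_LRGA)

universe u

/-- bound for `√θ` -/
noncomputable def dl (k : Con) : ℝ :=
  1 / (10 ^ 7 * (4 * (k.M + 1) * (k.X1 + 5 * KX4 k.C k.πk + 6)))

theorem dl_pos (k : Con) : 0 < dl k := by
  unfold dl
  positivity

/-- thresholds of LRGA -/
noncomputable def TA (k : Con) : Thr where
  π0 _ := 1
  κ0 _ _ := 1
  ε0 _ _ _ := 1 / 10
  ζ0 _ _ _ _ := 1
  θ0 _ _ _ _ _ := dl k ^ 2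

theorem TA_pos (k : Con) : (TA k).Pos where
  π0 _ _ := one_pos
  κ0 _ _ _ _ := one_pos
  ε0 _ _ _ _ _ _ := by norm_num [TA]
  ζ0 _ _ _ _ _ _ _ _ := one_pos
  θ0 _ _ _ _ _ _ _ _ _ _ := by
    have := dl_pos k
    simp only [TA]
    positivity

theorem pow_ev (c : ℝ) (hc : 0 < c) (B : ℝ) : ∃ d0 : ℕ, ∀ d : ℕ, d0 ≤ d → B ≤ (d : ℝ) ^ c := by
  have h := (tendsto_rpow_atTop hc).comp tendsto_natCast_atTop_atTop
  obtain ⟨d0, h0⟩ := Filter.eventually_atTop.1 (h.eventually_ge_atTop B)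
  exact ⟨d0, fun d hd => h0 d hd⟩

theorem stmt_LRGA : Stmt_LRGA.{u} := by
  intro k hk
  refine ⟨TA k, TA_pos k, ?_⟩
  intro J S c' hS hc hc2
  obtain ⟨d1, h1⟩ := pow_ev (c' / 8) (by positivity) (10 ^ 7)
  refine ⟨max 1 d1, ?_⟩
  intro V _ N D hd hSD H U cR q rg τ σ Sl L n β i b hn hb h4
  have hd1 : 1 ≤ D.d := le_trans (le_max_left _ _) hd
  have hd2 := h1 D.d (le_trans (le_max_right _ _) hd)
  have hd' : (1 : ℝ) ≤ D.d := by exact_mod_cast hd1
  obtain ⟨hP, hX1, hX0⟩ := kc4 h4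
  have hKX := K_le hk H
  have hK : D.K < D.nd n β b := lt_of_le_of_lt hKX hX1
  have hAd := hS (D.X.sc n)
  have hSD' : D.S = S := hSD
  have hq := q_le L.dem hn (β := β) i hP
  have hX1' : 6 ≤ D.X1 := by
    have h1 := hk.XC
    have h2 := hk.C1
    have h3 : (6 : ℝ) ≤ k.X1 := by linarith
    rw [H.X1]
    exact_mod_cast h3
  have hq0 : 0 < q n β i b := by omega
  have hA1 := L.avx.a1 n β i b hn hq0
  have hA2 := L.avx.a2 n β i b hn hP hX1
  have hr := reg1 L.i1 L.τ0 hn hb hA1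
  have hb1 := bad1 L.dem L.slt hn β i
  have hb2 := bad2 L.i4 L.τ0 hn β i hb
  have hb3 := bad3 hk H L.dem L.slt hn β i hb hK
  have hε : (D.S (D.X.sc n)).ε ≤ 1 / 10 := by
    rw [hSD']
    exact hAd.ε.2
  have hbig := qV_big H.pc hd1 hn hε β i
  -- the constants
  have hθ : Real.sqrt (D.sl n).θ ≤ dl k := by
    rw [Real.sqrt_le_left (dl_pos k).le]
    unfold OD.sl
    rw [hSD']
    exact hAd.θ.2
  have hb3' : 4 * (k.M : ℝ) * ((k.X1 + 5 * D.K + 6) * (Real.sqrt (D.sl n).θ * D.d)) ≤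
      1 / 10 ^ 7 * D.d := by
    rw [H.K]
    have h2 : 4 * (k.M : ℝ) * (k.X1 + 5 * KX4 k.C k.πk + 6) * Real.sqrt (D.sl n).θ ≤
        1 / 10 ^ 7 := by
      calc 4 * (k.M : ℝ) * (k.X1 + 5 * KX4 k.C k.πk + 6) * Real.sqrt (D.sl n).θ
          ≤ 4 * ((k.M : ℝ) + 1) * (k.X1 + 5 * KX4 k.C k.πk + 6) * dl k := by
            gcongr
            linarith
        _ = 1 / 10 ^ 7 := by
            unfold dl
            field_simp
    calc _ = (4 * (k.M : ℝ) * (k.X1 + 5 * KX4 k.C k.πk + 6) * Real.sqrt (D.sl n).θ) * D.d := by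
          ring
      _ ≤ _ := mul_le_mul_of_nonneg_right h2 (by positivity)
  have hb2' : (D.m0 : ℝ) * (D.d : ℝ) ^ (3 * c' / 8) ≤ 1 / 10 ^ 7 * D.d := by
    have h2 : (D.m0 : ℝ) ≤ (D.d : ℝ) ^ (1 - c' / 2) := by
      rw [H.m0]
      exact Nat.floor_le (by positivity)
    have h3 : (D.d : ℝ) ^ (1 - c' / 2) * (D.d : ℝ) ^ (3 * c' / 8) * (D.d : ℝ) ^ (c' / 8) =
        D.d := by
      rw [← Real.rpow_add (by linarith), ← Real.rpow_add (by linarith)]
      have : 1 - c' / 2 + 3 * c' / 8 + c' / 8 = 1 := by ring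
      rw [this, Real.rpow_one]
    have h4 : 0 ≤ (D.d : ℝ) ^ (3 * c' / 8) := by positivity
    have h5 : (D.m0 : ℝ) * (D.d : ℝ) ^ (3 * c' / 8) ≤
        (D.d : ℝ) ^ (1 - c' / 2) * (D.d : ℝ) ^ (3 * c' / 8) :=
      mul_le_mul_of_nonneg_right h2 h4
    have h6 : 0 ≤ (D.d : ℝ) ^ (1 - c' / 2) * (D.d : ℝ) ^ (3 * c' / 8) := by positivity
    have h7 : (D.d : ℝ) ^ (1 - c' / 2) * (D.d : ℝ) ^ (3 * c' / 8) * 10 ^ 7 ≤ D.d := by
      calc _ ≤ (D.d : ℝ) ^ (1 - c' / 2) * (D.d : ℝ) ^ (3 * c' / 8) * (D.d : ℝ) ^ (c' / 8) :=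
            mul_le_mul_of_nonneg_left hd2 h6
        _ = _ := h3
    linarith
  -- the set
  have hsub : (D.Av U cR n β i b).filter (fun v => rg v = 1) ⊆
      AA D U cR q rg τ σ Sl n β i b ∪
        ((qV D.X n β i).filter (fun v => rg v = 1 ∧ ∃ b', v ∈ Sl n β i b') ∪
        ((qV D.X n β i).filter (fun v => D.PotN q τ σ v b) ∪
        (D.Av U cR n β i b).filter (fun v => ∃ m β' i', ∃ w ∈ Sl m β' i' b,
          Te D.G D.X v w ∧ D.X.cq w = D.X.cq v))) := by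
    intro v hv
    obtain ⟨hv1, hv2⟩ := mem_filter.1 hv
    by_cases c1 : ∃ b', v ∈ Sl n β i b'
    · exact mem_union_right _ (mem_union_left _ (mem_filter.2 ⟨Av_sub hv1, hv2, c1⟩))
    by_cases c2 : D.PotN q τ σ v b
    · exact mem_union_right _ (mem_union_right _ (mem_union_left _
        (mem_filter.2 ⟨Av_sub hv1, c2⟩)))
    by_cases c3 : ∃ m β' i', ∃ w ∈ Sl m β' i' b, Te D.G D.X v w ∧ D.X.cq w = D.X.cq v
    · exact mem_union_right _ (mem_union_right _ (mem_union_right _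
        (mem_filter.2 ⟨hv1, c3⟩)))
    refine mem_union_left _ (mem_filter.2 ⟨hv1, hv2, fun b' h => c1 ⟨b', h⟩, c2, ?_⟩)
    intro w hw1 hw2 hw3
    exact c3 ⟨_, _, _, w, hw3, hw1, hw2⟩
  have hcard := (card_le_card hsub).trans ((card_union_le _ _).trans
    (Nat.add_le_add_left ((card_union_le _ _).trans (Nat.add_le_add_left
      (card_union_le _ _) _)) _))
  have hcard' : (((D.Av U cR n β i b).filter (fun v => rg v = 1)).card : ℝ) ≤
      (AA D U cR q rg τ σ Sl n β i b).card +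
      (((qV D.X n β i).filter (fun v => rg v = 1 ∧ ∃ b', v ∈ Sl n β i b')).card +
      (((qV D.X n β i).filter (fun v => D.PotN q τ σ v b)).card +
      ((D.Av U cR n β i b).filter (fun v => ∃ m β' i', ∃ w ∈ Sl m β' i' b,
          Te D.G D.X v w ∧ D.X.cq w = D.X.cq v)).card)) := by
    exact_mod_cast hcard
  linarith

end Pool.Agent.Work.MP_db9399_oc_h62
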