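import Pool.Agent.Work.MP_db9399_oc.Interface

/-!
# MP_db9399: LRG, basic facts (helper62)
-/

set_option autoImplicit false

namespace Pool.Agent.Work.MP_db9399_oc_h62

open Finset Classical
open Pool.Agent.Work.MP_db9399_all (nb)
open Pool.Agent.Work.MP_db9399_lt (us)
open Pool.Agent.Work.MP_db9399_da hiding qV
open Pool.Agent.Work.MP_db9399_xf
open Pool.Agent.Work.MP_db9399_x4
open Pool.Agent.Work.MP_db9399_oc

universe u

variable {V : Type u} {N J : ℕ}

theorem Te_symm {G : SimpleGraph V} {X : XD V N J} {v w : V} (h : Te G X v w) : Te G X w v :=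
  ⟨h.1.symm, h.2.2, h.2.1⟩

theorem Te_ne {G : SimpleGraph V} {X : XD V N J} {v w : V} (h : Te G X v w) : v ≠ w :=
  h.1.ne

variable [Fintype V]

theorem mem_qV {X : XD V N J} {n : Fin N} {β i : Bool} {v : V} :
    v ∈ qV X n β i ↔ v ∉ X.P.V0 ∧ X.P.pc v = n ∧ X.P.sd v = β ∧ X.P.pt v = i := by
  simp [qV, sV, and_assoc]

theorem qV_le_sV {X : XD V N J} (n : Fin N) (β i : Bool) : qV X n β i ⊆ sV X.P n β :=
  filter_subset _ _

/-- the quarters of the type B are large -/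
theorem qV_big {C g z θk θ' η a : ℝ} {M : ℕ} {S : Fin J → Scl} {G : SimpleGraph V} {d : ℕ}
    {X : XD V N J} (pc : PcX C g z θk θ' η a M S G d X) (hd : 1 ≤ d) {n : Fin N}
    (hn : X.P.ty n = Ty.B) (hε : (S (X.sc n)).ε ≤ 1 / 10) (β i : Bool) :
    2 / 5 * (d : ℝ) ≤ ((qV X n β i).card : ℝ) := by
  have hd' : (1 : ℝ) ≤ d := by exact_mod_cast hd
  -- one vertex gives both quarters of the other side
  have key : ∀ v : Ts X.P n, ∀ j, 2 / 5 * (d : ℝ) ≤ ((qV X n (!(X.P.sd v.1)) j).card : ℝ) := by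
    intro v j
    have h1 := pc.bD n hn v j
    have h2 : ((nb (bk G X.P n) v ∩ prt (ptn X.P n) j).card : ℝ) ≤
        ((qV X n (!(X.P.sd v.1)) j).card : ℝ) := by
      have : ((nb (bk G X.P n) v ∩ prt (ptn X.P n) j).map ⟨Subtype.val, Subtype.val_injective⟩)
          ⊆ qV X n (!(X.P.sd v.1)) j := by
        intro w hw
        rw [mem_map] at hw
        obtain ⟨w', hw', rfl⟩ := hw
        rw [mem_inter] at hw'
        have ha : (bulk G X.P).Adj v.1 w'.1 := by
          have := hw'.1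
          simp only [nb, mem_filter, mem_univ, true_and] at this
          exact this
        have hp : X.P.pt w'.1 = j := by
          exact (mem_filter.1 hw'.2).2
        refine mem_qV.2 ⟨w'.2.1, w'.2.2, ?_, hp⟩
        have h3 := ha.2.2.2.2 (by rw [v.2.2]; exact hn)
        show X.P.sd w'.1 = !(X.P.sd v.1)
        revert h3
        cases X.P.sd v.1 <;> cases X.P.sd w'.1 <;> simp
      have := card_le_card this
      rw [card_map] at this
      exact_mod_cast this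
    have h3 := abs_le.1 h1
    have h4 : (S (X.sc n)).ε * (d : ℝ) ≤ 1 / 10 * d :=
      mul_le_mul_of_nonneg_right hε (by positivity)
    linarith [h3.1]
  obtain ⟨v, hv⟩ := pc.bN n hn
  have hv' : v ∉ X.P.V0 ∧ X.P.pc v = n := by
    simpa [pV] using hv
  by_cases hβ : (!(X.P.sd v)) = β
  · have := key ⟨v, hv'⟩ i
    rw [hβ] at this
    exact this
  · have h1 := key ⟨v, hv'⟩ i
    have h2 : (qV X n (!(X.P.sd v)) i).Nonempty := by
      rw [← card_pos]
      by_contra h0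
      push Not at h0
      have : (qV X n (!(X.P.sd v)) i).card = 0 := by omega
      rw [this] at h1
      norm_num at h1
      linarith
    obtain ⟨w, hw⟩ := h2
    rw [mem_qV] at hw
    have h3 := key ⟨w, hw.1, hw.2.1⟩ i
    have h4 : (!(X.P.sd w)) = β := by
      rw [hw.2.2.1]
      revert hβ
      cases X.P.sd v <;> cases β <;> simp
    simp only [h4] at h3
    exact h3

variable {k : Con} {c' : ℝ} {D : OD V N J}

theorem kc1 {n : Fin N} {β i : Bool} {b : ℕ} (h : D.kc n β i b = 1) :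
    b ∈ D.P n ∧ D.X1 < D.nd n β b ∧ D.nd n β b ≤ D.X0 := by
  unfold OD.kc at h
  by_cases h1 : b ∈ D.Qn n (!i)
  · simp [h1] at h
  by_cases h2 : b ∈ D.P2n n
  · simp [h1, h2] at h
  by_cases h3 : b ∈ D.P n
  · by_cases h4 : D.nd n β b ≤ D.X1
    · simp [h1, h2, h3, h4] at h
    · by_cases h5 : D.nd n β b ≤ D.X0
      · exact ⟨h3, by omega, h5⟩
      · simp [h1, h2, h3, h4, h5] at h
  · simp [h1, h2, h3] at h

theorem kc4 {n : Fin N} {β i : Bool} {b : ℕ} (h : D.kc n β i b = 4) :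
    b ∈ D.P n ∧ D.X1 < D.nd n β b ∧ D.X0 < D.nd n β b := by
  unfold OD.kc at h
  by_cases h1 : b ∈ D.Qn n (!i)
  · simp [h1] at h
  by_cases h2 : b ∈ D.P2n n
  · simp [h1, h2] at h
  by_cases h3 : b ∈ D.P n
  · by_cases h4 : D.nd n β b ≤ D.X1
    · simp [h1, h2, h3, h4] at h
    · by_cases h5 : D.nd n β b ≤ D.X0
      · simp [h1, h2, h3, h4, h5] at h
      · exact ⟨h3, by omega, by omega⟩
  · simp [h1, h2, h3] at h

omit [Fintype V] in
theorem P_lt {n : Fin N} {b : ℕ} (h : b ∈ D.P n) : b < D.d + 2 := by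
  unfold OD.P P1 at h
  exact mem_range.1 (mem_sdiff.1 h).1

theorem K_le (hk : k.Ok) (H : Hyp k c' D) : D.K ≤ D.X1 := by
  have h1 := hk.XK
  have h2 : 2 * KX4 k.C k.πk ≤ k.X1 := by exact_mod_cast h1
  rw [H.K, H.X1]
  omega

theorem q_le {q : Fin N → Bool → Bool → ℕ → ℕ} (Dm : D.Dem q) {n : Fin N}
    (hn : D.X.P.ty n = Ty.B) {β : Bool} (i : Bool) {b : ℕ} (hb : b ∈ D.P n) :
    2 * q n β i b ≤ D.nd n β b + 1 ∧ D.nd n β b ≤ 2 * q n β i b + 1 := by
  have h1 := Dm.p1 n hn β b hb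
  have h2 := Dm.hf n hn β false b hb
  have h3 := Dm.hf n hn β true b hb
  cases i <;> omega

/-- the vertices for the groups of class 4 -/
noncomputable def Ag (D : OD V N J) (U : Finset V) (cR : V → ℕ)
    (q : Fin N → Bool → Bool → ℕ → ℕ) (rg τ : V → ℕ) (σ : Fin N → Bool → Bool → ℕ → ℕ → ℕ)
    (Sl : Fin N → Bool → Bool → ℕ → Finset V) (n : Fin N) (β i : Bool) (b : ℕ) : Finset V :=
  (D.Av U cR n β i b).filter (fun v => rg v = 1 ∧ (∀ b', v ∉ Sl n β i b') ∧
    ¬ D.PotN q τ σ v b ∧ ∀ m β' i', ∀ w ∈ Sl m β' i' b, Te D.G D.X v w → D.X.cq w ≠ D.X.cq v)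

theorem mem_Av {U : Finset V} {cR : V → ℕ} {n : Fin N} {β i : Bool} {b : ℕ} {v : V} :
    v ∈ D.Av U cR n β i b ↔ v ∈ qV D.X n β i ∧ D.fr v b ∧ D.typ v b ∧
    (∀ w, Owd D.X w → D.G.Adj v w → D.cN w ≠ b) ∧ ∀ y ∈ U, D.G.Adj v y → cR y ≠ b := by
  unfold OD.Av
  exact mem_filter

theorem Av_sub {U : Finset V} {cR : V → ℕ} {n : Fin N} {β i : Bool} {b : ℕ} :
    D.Av U cR n β i b ⊆ qV D.X n β i := fun _ h => (mem_Av.1 h).1

/-- (1) the region 1 contains a thirtieth of the available vertices -/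
theorem reg1 {U : Finset V} {cR : V → ℕ} {rg τ : V → ℕ} (h1 : D.I1 U cR rg τ)
    (hτ : ∀ v, τ v < D.m0) {n : Fin N} (hn : D.X.P.ty n = Ty.B) {β i : Bool} {b : ℕ}
    (hb : b < D.d + 2)
    (hA : (D.sl n).ζ / 50 * D.d ≤ ((D.Av U cR n β i b).card : ℝ)) :
    ((D.Av U cR n β i b).card : ℝ) / 30 ≤
      (((D.Av U cR n β i b).filter (fun v => rg v = 1)).card : ℝ) := by
  by_cases hm : D.m0 = 0
  · -- no vertices
    have : D.Av U cR n β i b = ∅ := by
      rw [eq_empty_iff_forall_notMem]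
      intro v _
      have := hτ v
      omega
    rw [this]
    simp
  have hm' : (0 : ℝ) < D.m0 := by exact_mod_cast Nat.pos_of_ne_zero hm
  have h2 : ((D.Av U cR n β i b).filter (fun v => rg v = 1)).card =
      ∑ j ∈ range D.m0, ((D.Av U cR n β i b).filter (fun v => rg v = 1 ∧ τ v = j)).card := by
    rw [card_eq_sum_card_fiberwise (f := τ) (t := range D.m0)
      (fun v _ => by simpa using hτ v)]
    refine sum_congr rfl fun j _ => ?_
    rw [filter_filter]
  rw [h2]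
  push_cast
  calc ((D.Av U cR n β i b).card : ℝ) / 30
      = ∑ j ∈ range D.m0, ((D.Av U cR n β i b).card : ℝ) / (30 * D.m0) := by
        rw [sum_const, card_range, nsmul_eq_mul]
        field_simp
    _ ≤ _ := sum_le_sum fun j hj => h1.c1 n β i b j hn hb (mem_range.1 hj) hA

/-- (2) few of them have slots -/
theorem bad1 {U : Finset V} {cR : V → ℕ} {q : Fin N → Bool → Bool → ℕ → ℕ} {rg τ : V → ℕ}
    {σ : Fin N → Bool → Bool → ℕ → ℕ → ℕ} {Sl : Fin N → Bool → Bool → ℕ → Finset V}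
    (Dm : D.Dem q) (hS : D.Slt U cR q rg τ σ Sl) {n : Fin N} (hn : D.X.P.ty n = Ty.B)
    (β i : Bool) :
    (((qV D.X n β i).filter (fun v => rg v = 1 ∧ ∃ b', v ∈ Sl n β i b')).card : ℝ) ≤
      1 / 500000 * (qV D.X n β i).card := by
  refine le_trans ?_ (Dm.t1 n hn β i)
  have h1 : (qV D.X n β i).filter (fun v => rg v = 1 ∧ ∃ b', v ∈ Sl n β i b') ⊆
      ((D.P n).filter (fun b => D.X1 < D.nd n β b)).biUnion (fun b => Sl n β i b) := by
    intro v hv
    obtain ⟨_, h1, b', hb'⟩ := mem_filter.1 hv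
    have h2 := hS.rg n β i b' v hb'
    have h3 := kc1 (h2.symm.trans h1)
    exact mem_biUnion.2 ⟨b', mem_filter.2 ⟨h3.1, h3.2.1⟩, hb'⟩
  have h2 := (card_le_card h1).trans card_biUnion_le
  have h3 : ∑ b ∈ (D.P n).filter (fun b => D.X1 < D.nd n β b), (Sl n β i b).card ≤
      ∑ b ∈ (D.P n).filter (fun b => D.X1 < D.nd n β b), q n β i b := by
    refine sum_le_sum fun b hb => ?_
    by_cases h4 : D.kc n β i b = 4
    · rw [hS.c4 n β i b (Or.inr (Or.inr h4))]
      simp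
    · rw [hS.cd n β i b hn (P_lt (mem_filter.1 hb).1) h4]
  exact_mod_cast h2.trans h3

/-- (3) few have possible slots in other clusters as neighbours -/
theorem bad2 {q : Fin N → Bool → Bool → ℕ → ℕ} {τ : V → ℕ}
    {σ : Fin N → Bool → Bool → ℕ → ℕ → ℕ} (h4 : D.I4 c' q τ σ) (hτ : ∀ v, τ v < D.m0)
    {n : Fin N} (hn : D.X.P.ty n = Ty.B) (β i : Bool) {b : ℕ} (hb : b < D.d + 2) :
    (((qV D.X n β i).filter (fun v => D.PotN q τ σ v b)).card : ℝ) ≤
      D.m0 * (D.d : ℝ) ^ (3 * c' / 8) := by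
  have h2 : ((qV D.X n β i).filter (fun v => D.PotN q τ σ v b)).card =
      ∑ j ∈ range D.m0, ((qV D.X n β i).filter (fun v => τ v = j ∧ D.PotN q τ σ v b)).card := by
    rw [card_eq_sum_card_fiberwise (f := τ) (t := range D.m0)
      (fun v _ => by simpa using hτ v)]
    refine sum_congr rfl fun j _ => ?_
    rw [filter_filter]
    congr 1
    ext v
    simp only [mem_filter]
    tauto
  rw [h2]
  push_cast
  calc ∑ j ∈ range D.m0,
        (((qV D.X n β i).filter (fun v => τ v = j ∧ D.PotN q τ σ v b)).card : ℝ)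
      ≤ ∑ j ∈ range D.m0, (D.d : ℝ) ^ (3 * c' / 8) :=
        sum_le_sum fun j hj => h4.pot n β i b j hn hb (mem_range.1 hj)
    _ = _ := by rw [sum_const, card_range, nsmul_eq_mul]

/-- the cluster of a piece of type B -/
theorem clu (H : Hyp k c' D) {n : Fin N} (hn : D.X.P.ty n = Ty.B) :
    ∃ kk : ℕ, (∀ v, v ∉ D.X.P.V0 → D.X.P.pc v = n → D.X.cq v = some kk) ∧ D.inC n kk := by
  obtain ⟨v, hv⟩ := H.pc.bN n hn
  have hv' : v ∉ D.X.P.V0 ∧ D.X.P.pc v = n := by simpa [pV] using hv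
  have h1 := H.pc.cln v hv'.1
  obtain ⟨kk, hkk⟩ := Option.ne_none_iff_exists'.1 h1
  refine ⟨kk, fun w hw hw' => ?_, ⟨v, hv, hkk⟩⟩
  rw [← hkk]
  exact H.pc.clp w v hw hv'.1 (hw'.trans hv'.2.symm)

/-- the vertices of `Ag` blocked by one quarter -/
theorem blk1 (hk : k.Ok) (H : Hyp k c' D) {U : Finset V} {cR : V → ℕ}
    {q : Fin N → Bool → Bool → ℕ → ℕ} {rg τ : V → ℕ}
    {σ : Fin N → Bool → Bool → ℕ → ℕ → ℕ} {Sl : Fin N → Bool → Bool → ℕ → Finset V}
    (Dm : D.Dem q) (hS : D.Slt U cR q rg τ σ Sl) {n : Fin N} (hn : D.X.P.ty n = Ty.B)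
    {kk : ℕ} (hkk : ∀ v, v ∉ D.X.P.V0 → D.X.P.pc v = n → D.X.cq v = some kk) (β : Bool) {b : ℕ}
    (hb : b < D.d + 2) (hK : D.K < D.nd n β b) (m : Fin N) (β' i' : Bool) :
    ∑ w ∈ (Sl m β' i' b).filter (fun w => D.X.cq w = some kk),
      (((sV D.X.P n β).filter (fun v => Te D.G D.X w v ∧ D.fr v b)).card : ℝ) ≤
      (k.X1 + 5 * D.K + 6) * (Real.sqrt (D.sl n).θ * D.d) := by
  have hs : 0 ≤ Real.sqrt (D.sl n).θ * D.d := by positivity
  have hKX := K_le hk H
  by_cases h4 : D.kc m β' i' b = 4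
  · rw [hS.c4 m β' i' b (Or.inr (Or.inr h4))]
    simp only [filter_empty, sum_empty]
    positivity
  by_cases hty : D.X.P.ty m = Ty.B
  swap
  · rw [hS.c4 m β' i' b (Or.inl hty)]
    simp only [filter_empty, sum_empty]
    positivity
  -- facts about the slots
  have hw : ∀ w ∈ (Sl m β' i' b).filter (fun w => D.X.cq w = some kk),
      w ∉ D.X.P.V0 ∧ D.X.P.pc w = m ∧ D.X.P.sd w = β' ∧ D.typ w b ∧
      (D.sl m).θ = (D.sl n).θ ∧ ∃ v ∈ pV D.X.P n, D.X.cq v = D.X.cq w := by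
    intro w hw
    obtain ⟨h1, h2⟩ := mem_filter.1 hw
    have h3 := mem_Av.1 (hS.av m β' i' b h1)
    have h5 := mem_qV.1 h3.1
    obtain ⟨v, hv⟩ := H.pc.bN n hn
    have hv' : v ∉ D.X.P.V0 ∧ D.X.P.pc v = n := by simpa [pV] using hv
    have h6 : D.X.cq v = D.X.cq w := by rw [h2]; exact hkk v hv'.1 hv'.2
    refine ⟨h5.1, h5.2.1, h5.2.2.1, h3.2.2.1, ?_, v, hv, h6⟩
    have h7 := H.pc.scq v w hv'.1 h5.1 h6
    rw [hv'.2, h5.2.1] at h7
    unfold OD.sl
    rw [h7]
  have hcard := hS.cd m β' i' b hty hb h4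
  have hle : ((Sl m β' i' b).filter (fun w => D.X.cq w = some kk)).card ≤ q m β' i' b := by
    rw [← hcard]
    exact card_le_card (filter_subset _ _)
  by_cases h1 : D.kc m β' i' b = 1
  · -- class 1
    obtain ⟨hP, hX1, _⟩ := kc1 h1
    have hq := q_le Dm hty (β := β') i' hP
    have hx : (0 : ℝ) < (D.nd m β' b : ℝ) + D.nd n β b := by
      have : (0 : ℝ) < (D.nd n β b : ℝ) := by exact_mod_cast (Nat.zero_le _).trans_lt hK
      positivity
    have h2 : ∀ w ∈ (Sl m β' i' b).filter (fun w => D.X.cq w = some kk),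
        (((sV D.X.P n β).filter (fun v => Te D.G D.X w v ∧ D.fr v b)).card : ℝ) *
          (D.nd m β' b + D.nd n β b) ≤ Real.sqrt (D.sl n).θ * D.d := by
      intro w hw'
      obtain ⟨_, h5, h6, h7, h8, v, hv, h9⟩ := hw w hw'
      have hndv : D.ndv w b = D.nd m β' b := by
        unfold OD.ndv
        rw [h5, h6]
      have h10 := h7.dg n β hn ⟨v, hv, h9⟩ (by rw [hndv]; omega) hK
      rw [hndv, h5, h8] at h10
      exact h10
    have h3 : (∑ w ∈ (Sl m β' i' b).filter (fun w => D.X.cq w = some kk),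
        (((sV D.X.P n β).filter (fun v => Te D.G D.X w v ∧ D.fr v b)).card : ℝ)) *
          (D.nd m β' b + D.nd n β b) ≤
        (D.nd m β' b + D.nd n β b) * (Real.sqrt (D.sl n).θ * D.d) := by
      rw [sum_mul]
      calc _ ≤ ∑ w ∈ (Sl m β' i' b).filter (fun w => D.X.cq w = some kk),
            Real.sqrt (D.sl n).θ * D.d := sum_le_sum h2
        _ = (((Sl m β' i' b).filter (fun w => D.X.cq w = some kk)).card : ℝ) *
            (Real.sqrt (D.sl n).θ * D.d) := by rw [sum_const, nsmul_eq_mul]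
        _ ≤ _ := by
          refine mul_le_mul_of_nonneg_right ?_ hs
          have h11 : ((Sl m β' i' b).filter (fun w => D.X.cq w = some kk)).card ≤
              D.nd m β' b + D.nd n β b := by omega
          exact_mod_cast h11
    have h4' : (∑ w ∈ (Sl m β' i' b).filter (fun w => D.X.cq w = some kk),
        (((sV D.X.P n β).filter (fun v => Te D.G D.X w v ∧ D.fr v b)).card : ℝ)) ≤
        Real.sqrt (D.sl n).θ * D.d := by
      rw [mul_comm] at h3
      exact le_of_mul_le_mul_left h3 hx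
    refine h4'.trans ?_
    have : (1 : ℝ) ≤ k.X1 + 5 * D.K + 6 := by
      have h1 : (0 : ℝ) ≤ k.X1 := by positivity
      have h2 : (0 : ℝ) ≤ D.K := by positivity
      linarith
    nlinarith
  · -- classes 2, 3
    have h3 := Dm.q3 m β' i' b h1 h4
    have h2 : ∀ w ∈ (Sl m β' i' b).filter (fun w => D.X.cq w = some kk),
        (((sV D.X.P n β).filter (fun v => Te D.G D.X w v ∧ D.fr v b)).card : ℝ) ≤
          Real.sqrt (D.sl n).θ * D.d := by
      intro w hw'
      obtain ⟨_, h5, h6, h7, h8, _⟩ := hw w hw'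
      have h9 := h7.thin
      rw [h5, h8] at h9
      refine le_trans ?_ h9
      have : (sV D.X.P n β).filter (fun v => Te D.G D.X w v ∧ D.fr v b) ⊆
          nb (thin D.G D.X.P) w := by
        intro v hv
        simp only [nb, mem_filter, mem_univ, true_and]
        exact (mem_filter.1 hv).2.1.1
      exact_mod_cast card_le_card this
    calc _ ≤ ∑ w ∈ (Sl m β' i' b).filter (fun w => D.X.cq w = some kk),
            Real.sqrt (D.sl n).θ * D.d := sum_le_sum h2
      _ = (((Sl m β' i' b).filter (fun w => D.X.cq w = some kk)).card : ℝ) *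
            (Real.sqrt (D.sl n).θ * D.d) := by rw [sum_const, nsmul_eq_mul]
      _ ≤ _ := by
        refine mul_le_mul_of_nonneg_right ?_ hs
        have h11 : ((Sl m β' i' b).filter (fun w => D.X.cq w = some kk)).card ≤
            k.X1 + 5 * D.K + 6 := by
          rw [← H.X1]
          omega
        exact_mod_cast h11

/-- the pieces of the cluster `kk` -/
noncomputable def Mk (D : OD V N J) (kk : ℕ) : Finset (Fin N) :=
  univ.filter (fun n => ∃ v, v ∉ D.X.P.V0 ∧ D.X.P.pc v = n ∧ D.X.cq v = some kk)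

theorem Mk_card (H : Hyp k c' D) (kk : ℕ) : (Mk D kk).card ≤ k.M := H.pc.npc kk

/-- (4) few are neighbours of slots of the same colour in the same cluster -/
theorem bad3 (hk : k.Ok) (H : Hyp k c' D) {U : Finset V} {cR : V → ℕ}
    {q : Fin N → Bool → Bool → ℕ → ℕ} {rg τ : V → ℕ}
    {σ : Fin N → Bool → Bool → ℕ → ℕ → ℕ} {Sl : Fin N → Bool → Bool → ℕ → Finset V}
    (Dm : D.Dem q) (hS : D.Slt U cR q rg τ σ Sl) {n : Fin N} (hn : D.X.P.ty n = Ty.B)
    (β i : Bool) {b : ℕ} (hb : b < D.d + 2) (hK : D.K < D.nd n β b) :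
    (((D.Av U cR n β i b).filter (fun v => ∃ m β' i', ∃ w ∈ Sl m β' i' b,
      Te D.G D.X v w ∧ D.X.cq w = D.X.cq v)).card : ℝ) ≤
      4 * k.M * ((k.X1 + 5 * D.K + 6) * (Real.sqrt (D.sl n).θ * D.d)) := by
  obtain ⟨kk, hkk, _⟩ := clu H hn
  have h1 : (D.Av U cR n β i b).filter (fun v => ∃ m β' i', ∃ w ∈ Sl m β' i' b,
      Te D.G D.X v w ∧ D.X.cq w = D.X.cq v) ⊆
      (Mk D kk ×ˢ (univ : Finset (Bool × Bool))).biUnion (fun p =>
        ((Sl p.1 p.2.1 p.2.2 b).filter (fun w => D.X.cq w = some kk)).biUnion (fun w =>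
          (sV D.X.P n β).filter (fun v => Te D.G D.X w v ∧ D.fr v b))) := by
    intro v hv
    obtain ⟨h1, m, β', i', w, hw, h2, h3⟩ := mem_filter.1 hv
    have h4 := mem_Av.1 h1
    have h5 := mem_qV.1 h4.1
    have h6 : D.X.cq w = some kk := h3.trans (hkk v h5.1 h5.2.1)
    have h7 := mem_qV.1 (mem_Av.1 (hS.av m β' i' b hw)).1
    refine mem_biUnion.2 ⟨(m, β', i'), ?_, mem_biUnion.2 ⟨w, mem_filter.2 ⟨hw, h6⟩, ?_⟩⟩
    · simp only [mem_product, mem_univ, and_true]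
      exact mem_filter.2 ⟨mem_univ _, w, h7.1, h7.2.1, h6⟩
    · refine mem_filter.2 ⟨?_, Te_symm h2, h4.2.1⟩
      exact qV_le_sV n β i h4.1
  have h2 : (((D.Av U cR n β i b).filter (fun v => ∃ m β' i', ∃ w ∈ Sl m β' i' b,
      Te D.G D.X v w ∧ D.X.cq w = D.X.cq v)).card : ℝ) ≤
      ∑ p ∈ Mk D kk ×ˢ (univ : Finset (Bool × Bool)),
        ∑ w ∈ (Sl p.1 p.2.1 p.2.2 b).filter (fun w => D.X.cq w = some kk),
          (((sV D.X.P n β).filter (fun v => Te D.G D.X w v ∧ D.fr v b)).card : ℝ) := by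
    have h3 := (card_le_card h1).trans card_biUnion_le
    have h4 := h3.trans (sum_le_sum fun p _ => card_biUnion_le)
    exact_mod_cast h4
  refine h2.trans ?_
  calc _ ≤ ∑ p ∈ Mk D kk ×ˢ (univ : Finset (Bool × Bool)),
        (k.X1 + 5 * D.K + 6) * (Real.sqrt (D.sl n).θ * D.d) :=
        sum_le_sum fun p _ => blk1 hk H Dm hS hn hkk β hb hK p.1 p.2.1 p.2.2
    _ = ((Mk D kk).card * 4 : ℕ) * ((k.X1 + 5 * D.K + 6) * (Real.sqrt (D.sl n).θ * D.d)) := by
        rw [sum_const, nsmul_eq_mul, card_product]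
        simp
    _ ≤ _ := by
        refine mul_le_mul_of_nonneg_right ?_ (by positivity)
        have h5 := Mk_card H kk
        have h6 : (Mk D kk).card * 4 ≤ 4 * k.M := by omega
        exact_mod_cast h6

end Pool.Agent.Work.MP_db9399_oc_h62
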